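import Pool.Agent.Lib.MC.Main
import Pool.Agent.Lib.MC.KX

set_option autoImplicit false

/-!
# Two Manin components of the same class

The question: let `X` be a smooth projective uniruled variety and `L` a big and nef divisor with
`κ(K_X + a(X, L) L) = 0`. Is there at most one Manin component of `Mor(ℙ¹, X)` for every integral
class `α` in the relative interior of `F(X, L)`?

The answer is no. Let `X` be the variety of the pairs `([Q], [A])` in `ℙ⁹ × ℙ¹⁴` where `Q` is a skew
symmetric `5 × 5` matrix of rank two, `A` is a nonzero symmetric `5 × 5` matrix and `A Q = 0`, i.e.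
`X = ℙ(Sym² S)` for the tautological bundle `S` of the Grassmannian `Gr(3, 5)`, so that
`Pic X = ℤ H ⊕ ℤ σ`, where `H` and `σ` are the pull backs of the hyperplane classes of `ℙ¹⁴` and
`ℙ⁹`. Divisor classes are written `(m, n) = m H + n σ` and curve classes `α = (H.α, σ.α)`.

The theorem `result` says:

* `X` is irreducible and covered by open subsets isomorphic to the affine space of dimension `11`
  (so `X` is smooth and rational), and `K_X = - 6 H - σ` (see `MC.StCH`, `MC.StKX`);
* `H` and `σ` are globally generated, the pseudo-effective cone is generated by `σ` and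
  `E = 3 H - 2 σ`, and `E` (the divisor where the rank of `A` is at most two) is rigid;
* for `0 < c ≤ 1 / 2` and `L = - K_X + c E = (6 + 3 c) H + (1 - 2 c) σ` (nef and big, ample for
  `c < 1 / 2`) one has `a(X, L) = 1` and `K_X + L = c E`, so that `κ(K_X + a(X, L) L) = 0`; the face
  `F(X, L)` is the ray generated by `(2, 3)`, and the classes `k (2, 3)` are in its relative
  interior;
* for every `k ≥ 1` the space `Mor(ℙ¹, X)` of the morphisms of class `k (2, 3)` has two different
  irreducible components `M₁` and `M₂` whose family maps factor rationally through no thin morphism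
  `f : Y → X` at all. So `M₁` and `M₂` are Manin components for all these `L`.

The reason: the open subset where the rank of `A` is three is homogeneous, `PGL`-like, and the curves
of class `k (2, 3)` which meet it are contained in it. On such a curve the bundle `S(k)` is an
orthogonal bundle of rank three, and the parity of `h⁰(S(k)(-1))` separates two components.
-/

namespace Pool.Agent.Results.MP_ac098b_ag.TwoManin

open MC

theorem result :
    -- `X` is irreducible, smooth and rational of dimension `11`, and `K_X = - 6 H - σ`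
    Irr Cone ∧ StCH ∧ StKX ∧
    -- `H` and `σ` are globally generated
    (∀ x : Cone, (∃ φ, IsSec 1 0 φ ∧ φ x ≠ 0) ∧ ∃ φ, IsSec 0 1 φ ∧ φ x ≠ 0) ∧
    -- the pseudo-effective cone
    Eff = {D : ℝ × ℝ | 0 ≤ D.1 ∧ 0 ≤ 2 * D.1 + 3 * D.2} ∧
    -- `E = 3 H - 2 σ` is effective and rigid
    (∃ δ : Cone → ℂ, IsSec 3 (-2) δ ∧ δ ≠ 0 ∧ ∀ (k : ℕ) (φ : Cone → ℂ),
      IsSec (3 * k) (-2 * k) φ → ∃ c : ℂ, ∀ x, φ x = c * δ x ^ k) ∧
    -- the polarisations `L = - K_X + c E`
    (∀ c : ℝ, 0 < c → c ≤ 1 / 2 → Lc c ∈ interior Eff ∧ IsA (Lc c) 1 ∧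
      KX + (1 : ℝ) • Lc c = c • ((3, -2) : ℝ × ℝ) ∧
      Face (Lc c) 1 = {α : ℝ × ℝ | ∃ r : ℝ, 0 ≤ r ∧ α = (2 * r, 3 * r)} ∧
      ∀ k : ℕ, 1 ≤ k → ((2 * k, 3 * k) : ℝ × ℝ) ∈ intrinsicInterior ℝ (Face (Lc c) 1)) ∧
    -- two Manin components of class `(H, σ) = (2 k, 3 k)`
    ∀ k : ℕ, 1 ≤ k → ∃ M₁ ∈ irreducibleComponents (Mor (3 * k) (2 * k)),
      ∃ M₂ ∈ irreducibleComponents (Mor (3 * k) (2 * k)), M₁ ≠ M₂ ∧ NoThin M₁ ∧ NoThin M₂ := by
  refine ⟨cIX.1, stCH, stKX, fun x => ⟨globH x, globS x⟩, cEF, ?_, ?_, two⟩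
  · obtain ⟨δ, h1, h2, -⟩ := stSE.2.2
    exact ⟨δ, h1, h2, cUN δ h1 h2⟩
  · intro c hc hc'
    obtain ⟨h1, h2, h3, -⟩ := cIN c hc hc'
    refine ⟨big cEF c hc hc', h1, h2, h3, fun k hk => ?_⟩
    have hk' : (0 : ℝ) < k := by exact_mod_cast hk
    rw [h3]
    exact mem_ray hk'

end Pool.Agent.Results.MP_ac098b_ag.TwoManin
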